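import Pool.Agent.Helper92.FR.GoalsB

/-!
# FR-VAL1: the values of `hh`, `gtil` and `eex`
-/

namespace Pool.Agent.Helper19.FR

open Pool.Agent.Helper81.CC Pool.Agent.Bin Pool.Agent.Helper92.VP Pool.Agent.Helper92.FR

noncomputable section

theorem getD_map_range {α : Type} (n : ℕ) (f : ℕ → α) (i : Fin n) (a : α) :
    ((List.range n).map f).getD i a = f i := by
  rw [List.getD_eq_getElem _ _ (by simp)]
  simp

/-- VAL1. -/
theorem val1 (h0 : Val0Stmt) (hm : MtlStmt) : Val1Stmt := by
  obtain ⟨hdot, hcols⟩ := h0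
  intro D lam hD hl
  obtain ⟨-, hsum, hcol⟩ := hcols D
  have hcol' := hcol hD
  have hval : ∀ (j : Fin D.1.length ⊕ Fin (nrow D)) (i : Fin (nrow D)),
      Qn.val ((colL D j).getD i Qn.zero) = col (CR D) (SR D) j i := fun j i =>
    congrFun (hcol' j).2 i
  have hda : ∀ j, Qn.val (dot lam (colL D j)) = aa (CR D) (SR D) (lv (nrow D) lam) j := by
    intro j
    rw [hdot (nrow D) _ _ hl (hcol' j).1, (hcol' j).2]
    rfl
  have hrj : ∀ a : Qn, Qn.val (rj a) = 1 / (1 + |Qn.val a|) := by
    intro a
    rw [rj, Qn.val_inv, Qn.val_add, Qn.val_one, Qn.val_abs, one_div]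
  refine ⟨by simp [hh], ?_, ?_, ?_, fun P K => by simp [gtil], ?_⟩
  · intro r hr
    simp only [hh, List.mem_map] at hr
    obtain ⟨i, -, rfl⟩ := hr
    simp
  · funext i i'
    change Qn.val (((hh D lam).getD i []).getD i' Qn.zero) = _
    rw [hh, getD_map_range, getD_map_range, Qn.val_sum, List.map_map]
    refine (hsum (Qn.val ∘ fun w => Qn.mul (Qn.mul (rj (dot lam w)) (rj (dot lam w)))
        (Qn.mul (w.getD i Qn.zero) (w.getD i' Qn.zero)))).trans ?_
    change _ = ∑ j, _
    refine Finset.sum_congr rfl fun j _ => ?_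
    simp only [Function.comp, Qn.val_mul, hrj, hda, hval]
    ring
  · rw [eex, Qn.val_sub, Qn.val_sum, List.map_map, hdot (nrow D) _ _ hl hD.2]
    unfold Eex
    congr 1
    refine (hsum (Qn.val ∘ fun w => if Qn.le (dot lam w) Qn.zero = true then Qn.zero
      else dot lam w)).trans ?_
    refine Finset.sum_congr rfl fun j _ => ?_
    simp only [Function.comp]
    split_ifs with h
    · rw [Qn.le_iff, Qn.val_zero, hda] at h
      rw [Qn.val_zero, max_eq_right h]
    · rw [Qn.le_iff, Qn.val_zero, hda, not_le] at h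
      rw [hda, max_eq_left h.le]
  · intro P K hP hK i
    have h1 : lv (nrow D) (gtil D lam P K) i =
        (∑ j, Qn.val (mtil P K (dot lam (colL D j))) * col (CR D) (SR D) j i) - eR D i := by
      change Qn.val ((gtil D lam P K).getD i Qn.zero) = _
      rw [gtil, getD_map_range, Qn.val_sub, Qn.val_sum, List.map_map]
      congr 1
      refine (hsum (Qn.val ∘ fun w => Qn.mul (mtil P K (dot lam w))
        (w.getD i Qn.zero))).trans ?_
      refine Finset.sum_congr rfl fun j _ => ?_
      simp only [Function.comp, Qn.val_mul, hval]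
    rw [h1, gg]
    have h2 : (∑ j, Qn.val (mtil P K (dot lam (colL D j))) * col (CR D) (SR D) j i) - eR D i -
        ((∑ j, mm (aa (CR D) (SR D) (lv (nrow D) lam) j) * col (CR D) (SR D) j i) - eR D i) =
        ∑ j, (Qn.val (mtil P K (dot lam (colL D j))) -
          mm (aa (CR D) (SR D) (lv (nrow D) lam) j)) * col (CR D) (SR D) j i := by
      simp only [sub_mul, Finset.sum_sub_distrib]
      ring
    rw [h2, Finset.sum_mul]
    refine (Finset.abs_sum_le_sum_abs _ _).trans (Finset.sum_le_sum fun j _ => ?_)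
    rw [abs_mul, mul_comm]
    refine mul_le_mul_of_nonneg_left ?_ (abs_nonneg _)
    rw [← hda]
    exact hm P K _ hP hK

end

end Pool.Agent.Helper19.FR
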